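import Pool.Agent.H61.FM.Targets

/-!
# The class group `L`-functions exist (EXL)
-/

set_option autoImplicit false

open MeasureTheory Set Filter NumberField
open scoped Real nonZeroDivisors

namespace Pool.Agent.H77.FM

open Pool.Agent.H31.CN Pool.Agent.H89.FM Pool.Agent.H61.FM

theorem exl_congr {ι : Type} {f g : ι → ℂ} {a : ℂ} (h : ∀ b, f b = g b) (hf : HasSum f a) :
    HasSum g a := by
  rwa [← funext h]

theorem exl_cpow (n D : ℕ) (hD : 0 < D) (s : ℂ) :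
    ((((n : ℝ) / Real.sqrt D : ℝ)) : ℂ) ^ (-s) = (n : ℂ) ^ (-s) * (D : ℂ) ^ (s / 2) := by
  have hDr : (0 : ℝ) < D := by exact_mod_cast hD
  have hs : 0 < Real.sqrt D := Real.sqrt_pos.2 hDr
  have h1 : ((((n : ℝ) / Real.sqrt D : ℝ)) : ℂ) = ((n : ℝ) : ℂ) * (((Real.sqrt D)⁻¹ : ℝ) : ℂ) := by
    rw [← Complex.ofReal_mul, div_eq_mul_inv]
  rw [h1, Complex.mul_cpow_ofReal_nonneg (Nat.cast_nonneg n) (inv_pos.2 hs).le]
  rw [Complex.ofReal_natCast]
  congr 1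
  have h2 : (((Real.sqrt D)⁻¹ : ℝ) : ℂ) ≠ 0 := by
    rw [Complex.ofReal_ne_zero]
    exact (inv_pos.2 hs).ne'
  have h3 : ((D : ℕ) : ℂ) ≠ 0 := by exact_mod_cast hD.ne'
  rw [Complex.cpow_def_of_ne_zero h2, Complex.cpow_def_of_ne_zero h3,
    ← Complex.ofReal_log (inv_pos.2 hs).le, Real.log_inv, Real.log_sqrt hDr.le,
    ← Complex.ofReal_natCast, ← Complex.ofReal_log hDr.le]
  congr 1
  push_cast
  ring

open Classical in
theorem pf_EXL (hRSX : T_RSX) (hEZA : T_EZA) (hTWS : T_TWS) (hQZV : T_QZV) : T_EXL := by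
  intro K _ _ D hIQ ψ
  obtain ⟨R⟩ := hRSX K D hIQ
  have hD : 0 < D := hIQ.pos
  have hD' : ((D : ℕ) : ℂ) ≠ 0 := by exact_mod_cast hD.ne'
  have hq : ∀ c, 0 < zy (R.Q c) ∧ ∀ v, qz (zx (R.Q c)) (zy (R.Q c)) v =
      (val (R.Q c) v : ℝ) / Real.sqrt D := by
    intro c
    obtain ⟨h1, h2⟩ := R.fd c
    have h3 : 0 < dsc (R.Q c) := by
      rw [h2]
      exact_mod_cast hD
    have h4 := fun v => hQZV (R.Q c) v h1 h3
    refine ⟨(h4 0).1, fun v => ?_⟩
    rw [(h4 v).2, h2]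
    simp
  have hE : ∀ c, (Differentiable ℂ fun s : ℂ => Ez s 1 ⊤ (zx (R.Q c)) (zy (R.Q c))) ∧
      ∀ s : ℂ, 1 < s.re → ∃ a : ℂ, HasSum (fun v : ℤ × ℤ =>
        if v ∈ (⊤ : AddSubgroup (ℤ × ℤ)) ∧ v ≠ 0 then
          (((qz (zx (R.Q c)) (zy (R.Q c)) v / (1 : ℕ) : ℝ)) : ℂ) ^ (-s) else 0) a ∧
        Ez s 1 ⊤ (zx (R.Q c)) (zy (R.Q c)) = gG s * a := fun c =>
    hEZA 1 ⊤ (zx (R.Q c)) (zy (R.Q c)) le_rfl AddSubgroup.index_top (hq c).1
  obtain ⟨Lam, hLam⟩ : ∃ Lam : ℂ → ℂ, Lam = fun s => (un K : ℂ)⁻¹ *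
      ∑ c, (((ψ c)⁻¹ : ℂˣ) : ℂ) * Ez s 1 ⊤ (zx (R.Q c)) (zy (R.Q c)) := ⟨_, rfl⟩
  have hLd : Differentiable ℂ Lam := by
    rw [hLam]
    refine Differentiable.const_mul ?_ _
    exact Differentiable.fun_sum fun c _ => ((hE c).1).const_mul _
  refine ⟨fun s => (2 * (π : ℂ)) ^ s * (Complex.Gamma (s + 1))⁻¹ * Lam s /
    ((s - 1) * (D : ℂ) ^ (s / 2)), ?_, ?_⟩
  · -- holomorphy
    intro s hs
    have h2p : (2 * (π : ℂ)) ≠ 0 := by
      have := Complex.ofReal_ne_zero.2 Real.pi_ne_zero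
      exact mul_ne_zero two_ne_zero this
    have h1 : DifferentiableAt ℂ (fun s : ℂ => (2 * (π : ℂ)) ^ s) s :=
      DifferentiableAt.const_cpow differentiableAt_id (Or.inl h2p)
    have h2 : DifferentiableAt ℂ (fun s : ℂ => (Complex.Gamma (s + 1))⁻¹) s := by
      have h3 := Complex.differentiable_one_div_Gamma (s + 1)
      exact DifferentiableAt.comp (g := fun z : ℂ => (Complex.Gamma z)⁻¹) (f := fun z : ℂ => z + 1)
        s h3 (by fun_prop)
    have h3 : DifferentiableAt ℂ (fun s : ℂ => (D : ℂ) ^ (s / 2)) s :=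
      DifferentiableAt.const_cpow (differentiableAt_id.div_const 2) (Or.inl hD')
    refine DifferentiableAt.differentiableWithinAt ?_
    refine ((h1.mul h2).mul (hLd s)).div ((differentiableAt_id.sub_const 1).mul h3) ?_
    refine mul_ne_zero (sub_ne_zero.2 hs) ?_
    rw [Complex.cpow_def_of_ne_zero hD']
    exact Complex.exp_ne_zero _
  · -- the series
    intro s hs
    have hex := fun c => (hE c).2 s hs
    choose a ha1 ha2 using hex
    -- sums over the ideals of a class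
    have hcl : ∀ c, HasSum (fun J : (Ideal (𝓞 K))⁰ => if ClassGroup.mk0 J = c⁻¹ then
        ((((nm J : ℝ) / Real.sqrt D : ℝ)) : ℂ) ^ (-s) else 0) (a c / un K) := by
      intro c
      have h1 := hTWS K D R.σ hIQ (R.I c) 1 (R.α c) (R.β c) (R.Q c) (R.ob c)
        (fun r => (((r / Real.sqrt D : ℝ)) : ℂ) ^ (-s)) (a c) (by
          refine exl_congr (fun v => ?_) (ha1 c)
          have hmem : v ∈ lt K (R.α c) (R.β c) (((1 : (Ideal (𝓞 K))⁰) : Ideal (𝓞 K)) * R.I c) := by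
            show (v.1 : 𝓞 K) * R.α c + (v.2 : 𝓞 K) * R.β c ∈
              ((1 : (Ideal (𝓞 K))⁰) : Ideal (𝓞 K)) * R.I c
            rw [OneMemClass.coe_one, one_mul]
            exact ((R.ob c).mem _).2 ⟨v, rfl⟩
          have hnm : (nm (1 : (Ideal (𝓞 K))⁰) : ℝ) = 1 := by
            unfold nm
            rw [OneMemClass.coe_one, map_one, Nat.cast_one]
          by_cases hv : v ≠ 0
          · rw [if_pos ⟨AddSubgroup.mem_top v, hv⟩, if_pos ⟨hmem, hv⟩, hnm, (hq c).2 v,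
              Nat.cast_one, div_one, div_one]
          · rw [if_neg (fun h => hv h.2), if_neg (fun h => hv h.2)])
      rw [R.cl c, map_one, mul_one] at h1
      exact h1
    have hsum : HasSum (fun J : (Ideal (𝓞 K))⁰ => ∑ c, (((ψ c)⁻¹ : ℂˣ) : ℂ) *
        (if ClassGroup.mk0 J = c⁻¹ then ((((nm J : ℝ) / Real.sqrt D : ℝ)) : ℂ) ^ (-s) else 0))
        (∑ c, (((ψ c)⁻¹ : ℂˣ) : ℂ) * (a c / un K)) :=
      hasSum_sum fun c _ => (hcl c).mul_left _
    obtain ⟨A, hA⟩ : ∃ A, A = ∑ c, (((ψ c)⁻¹ : ℂˣ) : ℂ) * (a c / un K) := ⟨_, rfl⟩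
    rw [← hA] at hsum
    have hterm : ∀ J : (Ideal (𝓞 K))⁰, ∑ c, (((ψ c)⁻¹ : ℂˣ) : ℂ) *
        (if ClassGroup.mk0 J = c⁻¹ then ((((nm J : ℝ) / Real.sqrt D : ℝ)) : ℂ) ^ (-s) else 0) =
        ((ψ (ClassGroup.mk0 J) : ℂˣ) : ℂ) *
          (Ideal.absNorm (J : Ideal (𝓞 K)) : ℂ) ^ (-s) * (D : ℂ) ^ (s / 2) := by
      intro J
      rw [Finset.sum_eq_single (ClassGroup.mk0 J)⁻¹]
      · rw [inv_inv, if_pos rfl, map_inv, inv_inv, exl_cpow (nm J) D hD s, mul_assoc]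
        rfl
      · intro c _ hc
        rw [if_neg, mul_zero]
        intro h
        apply hc
        rw [h, inv_inv]
      · intro h
        exact absurd (Finset.mem_univ _) h
    have hsum2 := exl_congr hterm hsum
    have hDs : (D : ℂ) ^ (s / 2) ≠ 0 := by
      rw [Complex.cpow_def_of_ne_zero hD']
      exact Complex.exp_ne_zero _
    have hsum3 := hsum2.div_const ((D : ℂ) ^ (s / 2))
    have hsum4 := exl_congr (fun J : (Ideal (𝓞 K))⁰ =>
      mul_div_cancel_right₀ (((ψ (ClassGroup.mk0 J) : ℂˣ) : ℂ) *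
        (Ideal.absNorm (J : Ideal (𝓞 K)) : ℂ) ^ (-s)) hDs) hsum3
    have hval : (2 * (π : ℂ)) ^ s * (Complex.Gamma (s + 1))⁻¹ * Lam s /
        ((s - 1) * (D : ℂ) ^ (s / 2)) = A / (D : ℂ) ^ (s / 2) := by
      have hL : Lam s = gG s * A := by
        rw [hLam, hA]
        show (un K : ℂ)⁻¹ * ∑ c, (((ψ c)⁻¹ : ℂˣ) : ℂ) * Ez s 1 ⊤ (zx (R.Q c)) (zy (R.Q c)) =
          gG s * ∑ c, (((ψ c)⁻¹ : ℂˣ) : ℂ) * (a c / un K)
        rw [Finset.mul_sum, Finset.mul_sum]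
        refine Finset.sum_congr rfl fun c _ => ?_
        rw [ha2 c]
        ring
      have hs0 : s ≠ 0 := by
        rintro rfl
        norm_num at hs
      have hs1 : s - 1 ≠ 0 := by
        intro h
        have h1 : s = 1 := by linear_combination h
        rw [h1] at hs
        norm_num at hs
      have hG : Complex.Gamma s ≠ 0 := Complex.Gamma_ne_zero_of_re_pos (by linarith)
      have h2p : (2 * (π : ℂ)) ≠ 0 :=
        mul_ne_zero two_ne_zero (Complex.ofReal_ne_zero.2 Real.pi_ne_zero)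
      have hpp : (2 * (π : ℂ)) ^ s * (2 * (π : ℂ)) ^ (-s) = 1 := by
        rw [← Complex.cpow_add _ _ h2p, add_neg_cancel, Complex.cpow_zero]
      rw [hL, Complex.Gamma_add_one s hs0]
      unfold gG
      rw [div_eq_div_iff (mul_ne_zero hs1 hDs) hDs]
      have e1 : (2 * (π : ℂ)) ^ s * (s * Complex.Gamma s)⁻¹ *
          (s * (s - 1) * Complex.Gamma s * (2 * (π : ℂ)) ^ (-s) * A) =
          ((2 * (π : ℂ)) ^ s * (2 * (π : ℂ)) ^ (-s)) * ((s - 1) * A) := by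
        field_simp
      rw [e1, hpp]
      ring
    show HasSum _ ((2 * (π : ℂ)) ^ s * (Complex.Gamma (s + 1))⁻¹ * Lam s /
        ((s - 1) * (D : ℂ) ^ (s / 2)))
    rw [hval]
    exact hsum4

end Pool.Agent.H77.FM
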